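import Pool.Agent.H27.BnD

/-! Odd powers of binomial coefficients summed modulo `n ^ 2`. -/

namespace Pool.Agent.Results.MP_32607b_nt.Full
open Finset Pool.Agent.H27.Bn

theorem result (m n k : ℕ) (hm : 0 < m) (hn : 0 < n) (hk : 0 < k) (hkm : k ≤ m) :
    n ^ 2 ∣ ((2 * k + 1) * (2 * m + 1) + 1).factorial / (2 * k + 1).factorial ^ (2 * m + 1) *
      ∑ h ∈ range n, h.choose (2 * k + 1) ^ (2 * m + 1) := by
  refine (Nat.dvd_iff_prime_pow_dvd_dvd _ _).mpr fun p j hp hj => ?_
  have h1 : j ≤ 2 * n.factorization p := by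
    simpa [Nat.factorization_pow] using (hp.pow_dvd_iff_le_factorization (by positivity)).mp hj
  have := prime_case (r := 2 * k + 1) (e := 2 * m + 1) hp (odd_two_mul_add_one k) (odd_two_mul_add_one m)
    (by omega) (by omega) (Nat.ordProj_dvd n p)
  simp only [S, Cf, Ring.choose_natCast] at this
  exact (pow_dvd_pow p h1).trans (by exact_mod_cast this)

end Pool.Agent.Results.MP_32607b_nt.Full
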